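import Pool.Agent.H83.Tw5

set_option autoImplicit false

namespace Pool.Agent.Results.MP_bc74b8_gt.OmegaTauCH

open Cardinal Pool.Agent.H85.TauDefs Pool.Agent.H85.SplitDefs

/-- Under CH `Split(Omega, Tau)` is not preserved under squares. -/
theorem result (hCH : (𝔠 : Cardinal.{0}) = ℵ₁) :
    ∃ X : Set ℝ, Split (Omega X) (Tau X) ∧ ¬ Split (Omega (Fin 2 → X)) (Tau (Fin 2 → X)) := by
  obtain ⟨X, -, -, h2, -, -, -, h6⟩ := Pool.Agent.H83.Tw.main hCH
  exact ⟨X, h2, fun h => h6 (Pool.Agent.H83.Tw.choose_of_split h)⟩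

end Pool.Agent.Results.MP_bc74b8_gt.OmegaTauCH
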