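import Pool.Agent.H83.Sier1

set_option autoImplicit false

namespace Pool.Agent.Results.MP_bc74b8_gt.TauTauCH

open Cardinal Pool.Agent.H85.TauDefs Pool.Agent.H85.SplitDefs

/-- Under CH `Split(Tau, Tau)` is not preserved under squares. -/
theorem result (hCH : (𝔠 : Cardinal.{0}) = ℵ₁) :
    ∃ X : Set ℝ, Split (Tau X) (Tau X) ∧ ¬ Split (Tau (Fin 2 → X)) (Tau (Fin 2 → X)) :=
  Pool.Agent.H83.Sier.main2 hCH

end Pool.Agent.Results.MP_bc74b8_gt.TauTauCH
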